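import Mathlib
import Pool.Agent.Helper11.SS.M
import Pool.Agent.Helper41.SS.Simple
import Pool.Agent.Helper11.Zt.SPieces

/-!
# The standard conjecture D for pieces with a simple Frobenius spectrum at a specialisation
-/

universe u v w u' w'

open CategoryTheory Finset Polynomial

namespace Pool.Agent.Helper11.BD

open Pool.Agent.Helper10 hiding IsAlgAut parityPart
open SmProjVar Pool.Agent.Helper10.GIT
open Pool.Agent.Helper11.Obs (extProd prodVar parityPart NumTrivialOrthogonal IsPiece)
open Pool.Agent.Helper11.Zt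

variable {k : Type u} [Field k] {K : Type v} [Field K] [CharZero K]
  {W : WeilCohomology.{u, v, w} k K} {F : Subfield K}
  {k' : Type u'} [Field k'] {W' : WeilCohomology.{u', v, w'} k' K}
  {P : ℕ} {V : Fin P → SmProjVar k} {V' : Fin P → SmProjVar k'}
  {φ : ∀ c, W.H (V c) → W'.H (V' c)}

/-- pieces specialise -/
theorem AreSpecializations.isPiece
    (hφ : AreSpecializations W.toCohomologyData W'.toCohomologyData V V' φ) (c : Fin P)
    {E : Submodule K (W.H (V c))} (hE : Ro.IsPieceOver W.toCohomologyData F (V c) E) :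
    IsPiece W'.toCohomologyData (V' c) (E.map (hφ.lin c)) := by
  obtain ⟨p, hp⟩ := hE.parity
  obtain ⟨u, hu, hu1⟩ := hE.projector
  obtain ⟨u', hu', hu2⟩ := hφ.exists_map c hu
  refine ⟨⟨p, ?_⟩, u', Ro.IsMapOver.isAlgebraicMap W' hu', fun y => ?_⟩
  · rintro _ ⟨x, hx, rfl⟩
    exact hφ.map_par c (hp hx)
  · obtain ⟨y, rfl⟩ := (hφ.bijective c).2 y
    rw [hu2]
    refine ⟨⟨u y, (hu1 y).1, rfl⟩, ?_⟩
    rintro _ ⟨x, hx, rfl⟩
    change W'.pairing (V' c) (φ c x) (φ c (u y)) = W'.pairing (V' c) (φ c x) (φ c y)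
    rw [hφ.pairing_eq, hφ.pairing_eq]
    exact (hu1 y).2 x hx

variable (W W')

/-- numerically trivial classes are orthogonal to words in pieces with a simple spectrum of
Frobenius with self-dual factors -/
theorem numTrivialOrthogonal_of_simple [Finite k'] {E : ∀ c, Submodule K (W'.H (V' c))}
    (hE : ∀ c, IsPiece W'.toCohomologyData (V' c) (E c)) {R : Fin P → K[X]}
    (hR : ∀ c, IsCharpolyOn (W'.pull (frob (V' c))) (E c) (R c))
    (hsq : ∀ c, Squarefree (R c))
    (hself : ∀ c (p : K[X]), Irreducible p → p ∣ R c →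
      Associated p (dualPoly ((Nat.card k' : K) ^ (V' c).dim) p)) (n : ℕ) :
    NumTrivialOrthogonal W'.toCohomologyData (pt k') V' E n := by
  refine numTrivialOrthogonal_of_no_flags.{u', v, w', v} W' (Ro.standardD_power_pt W') V' E hE
    (flags_eq_bot_of_no_relation' (isSymmetryOver_frob W') hE (P := R) ⟨hR, ?_⟩ ?_) n
  · intro c G _ _ f h _ hfh
    have h1 := hsq c
    rw [hfh, squarefree_mul_iff] at h1
    exact h1.1.isCoprime
  · intro Q hQ c
    by_contra hne
    have hnu : ¬ IsUnit (Q c) := fun h => hne ((hQ.monic c).eq_one_of_isUnit h)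
    obtain ⟨p, hp, hpQ⟩ := WfDvdMonoid.exists_irreducible_factor hnu (hQ.monic c).ne_zero
    have h1 := hself c p hp (hQ.factors c p hp hpQ)
    have h2 : p ∣ dualPoly ((Nat.card k' : K) ^ (V' c).dim) (Q c) :=
      h1.dvd.trans (dual_dvd_dual hpQ)
    exact hp.not_isUnit ((hQ.coprime c).isUnit_of_dvd' hpQ h2)

/-- **D for pieces with a simple Frobenius spectrum at a specialisation.** -/
theorem standardD_of_simpleFrobenius [Finite k']
    (hφ : AreSpecializations W.toCohomologyData W'.toCohomologyData V V' φ)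
    {E : ∀ c, Submodule K (W.H (V c))}
    (hE : ∀ c, Ro.IsPieceOver W.toCohomologyData (ratField K) (V c) (E c))
    (hmid : ∀ c, E c ≤ W.gr (V c) (V c).dim) {R : Fin P → ℚ[X]}
    (hR : ∀ c, IsCharpolyOn (W'.pull (frob (V' c))) ((E c).map (hφ.lin c))
      ((R c).map (algebraMap ℚ K)))
    (hsq : ∀ c, Squarefree (R c))
    (habs : ∀ c, ∀ z : ℂ, aeval z (R c) = 0 → ‖z‖ ^ 2 = (Nat.card k' : ℝ) ^ (V c).dim)
    (hself : ∀ c (p : K[X]), Irreducible p → p ∣ (R c).map (algebraMap ℚ K) →
      Associated p (dualPoly ((Nat.card k' : K) ^ (V c).dim) p))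
    {Y : SmProjVar k} (hY : Ro.IsSpanned W.toCohomologyData V E Y) : W.StandardD Y := by
  refine standardD_of_areSpecializations' W W' hφ hE (fun c =>
    hasNoIsotropicClass_of_isPositiveAt _ _ (isPositiveAt_of_simple W W' hφ c (hE c) (hmid c)
      (hR c) (hsq c) (habs c))) (fun n => ?_) hY
  refine numTrivialOrthogonal_of_simple W' (fun c => hφ.isPiece c (hE c)) hR (fun c => ?_)
    (fun c p hp hpR => ?_) n
  · exact ((PerfectField.separable_iff_squarefree.mpr (hsq c)).map).squarefree
  · rw [hφ.dim_eq]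
    exact hself c p hp hpR

end Pool.Agent.Helper11.BD
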